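import Pool.Agent.KS6_81.HilbP.A

/-!
# Hilbert planes and reverse perpendicular median lines: few triangles suffice

Let `K` be a bounded open convex set of the plane, `O` a point of `K`, and `r n < 1` numbers tending
to `1`. If the sides of every triangle inscribed in one of the curves `O + r n (∂K - O)` have
reverse perpendicular median lines which form a pencil, then `K` is the interior of an ellipse.
-/

set_option autoImplicit false

namespace Pool.Agent.Results.MP_2655df_gt.InscribedTriangles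

open Pool.Agent.KS6_81.HilbP Filter Topology

/-- The Hilbert distance of two points of `Ω`: the line `x + t (y - x)` leaves `Ω` at `t = -S` and
at `t = T`, and the distance is `1 / 2 * log ((1 + S) * T / (S * (T - 1)))`. -/
noncomputable def hilb (Ω : Set (ℝ × ℝ)) (x y : ℝ × ℝ) : ℝ := (1 / 2) * Real.log
  (((1 + sSup {s : ℝ | 0 ≤ s ∧ x - s • (y - x) ∈ Ω}) *
      sSup {t : ℝ | 0 ≤ t ∧ x + t • (y - x) ∈ Ω}) /
    (sSup {s : ℝ | 0 ≤ s ∧ x - s • (y - x) ∈ Ω} *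
      (sSup {t : ℝ | 0 ≤ t ∧ x + t • (y - x) ∈ Ω} - 1)))

/-- `ℓ` is a reverse perpendicular median line of `a, b`: a line through the midpoint `m` of the
segment `ab`, such that `m` is a nearest point of `ℓ` to each point of the line `ab`. -/
def RevMed (Ω : Set (ℝ × ℝ)) (a b : ℝ × ℝ) (ℓ : AffineSubspace ℝ (ℝ × ℝ)) : Prop :=
  Module.finrank ℝ ℓ.direction = 1 ∧ ∃ m ∈ segment ℝ a b, hilb Ω a m = hilb Ω m b ∧ m ∈ ℓ ∧
    ∀ x ∈ affineSpan ℝ {a, b}, x ∈ Ω → ∀ z ∈ ℓ, z ∈ Ω → hilb Ω x m ≤ hilb Ω x z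

/-- The three lines pass through one point or are parallel. -/
def Pencil (ℓ₁ ℓ₂ ℓ₃ : AffineSubspace ℝ (ℝ × ℝ)) : Prop :=
  (∃ p, p ∈ ℓ₁ ∧ p ∈ ℓ₂ ∧ p ∈ ℓ₃) ∨ (ℓ₁.direction = ℓ₂.direction ∧ ℓ₂.direction = ℓ₃.direction)

/-- two vectors of the plane orthogonal to the same nonzero vector are proportional -/
theorem par {u w f : P} (u0 : u ≠ 0) (f0 : f ≠ 0) (h1 : ip f u = 0) (h2 : ip f w = 0) :
    ∃ k : ℝ, k • u = w := by
  obtain ⟨u1, u2⟩ := u
  obtain ⟨w1, w2⟩ := w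
  obtain ⟨f1, f2⟩ := f
  simp only [ip] at h1 h2
  have f0' : f1 ≠ 0 ∨ f2 ≠ 0 := by
    by_contra hc
    push Not at hc
    exact f0 (by rw [hc.1, hc.2]; rfl)
  have hd0 : u1 * w2 = u2 * w1 := by
    rcases f0' with hf | hf
    · refine mul_left_cancel₀ hf ?_
      linear_combination w2 * h1 - u2 * h2
    · refine mul_left_cancel₀ hf ?_
      linear_combination u1 * h2 - w1 * h1
  have nu : 0 < u1 ^ 2 + u2 ^ 2 := by
    have u0' : u1 ≠ 0 ∨ u2 ≠ 0 := by
      by_contra hc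
      push Not at hc
      exact u0 (by rw [hc.1, hc.2]; rfl)
    rcases u0' with h | h
    · have := sq_nonneg u2; have := pow_pos (abs_pos.2 h) 2
      rw [sq_abs] at this; linarith
    · have := sq_nonneg u1; have := pow_pos (abs_pos.2 h) 2
      rw [sq_abs] at this; linarith
  refine ⟨(u1 * w1 + u2 * w2) / (u1 ^ 2 + u2 ^ 2), Prod.ext ?_ ?_⟩
  · simp only [Prod.smul_fst, smul_eq_mul]
    rw [div_mul_eq_mul_div, div_eq_iff nu.ne']
    linear_combination u2 * hd0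
  · simp only [Prod.smul_snd, smul_eq_mul]
    rw [div_mul_eq_mul_div, div_eq_iff nu.ne']
    linear_combination -u1 * hd0

variable {G : P → ℝ} (hG : Gg G)

include hG in
/-- every reverse perpendicular median line comes from supporting lines at the ends of the chord -/
theorem med {O a b : P} {ℓ : AffineSubspace ℝ P} (ha : G a < 1) (hb : G b < 1) (hne : a ≠ b)
    (hl : Module.finrank ℝ ℓ.direction = 1) {t : ℝ} (t0 : 0 ≤ t) (t1 : t ≤ 1)
    (hmid : hd G a (a + t • (b - a)) = hd G (a + t • (b - a)) b) (hm : O + (a + t • (b - a)) ∈ ℓ)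
    (hx : ∀ x ∈ ({a, b} : Set P), ∀ z, G z < 1 → O + z ∈ ℓ → hd G x (a + t • (b - a)) ≤ hd G x z) :
    ∃ φ ψ, Ch G a b φ ψ ∧ (∀ p, O + p ∈ ℓ ↔ ev (co φ ψ (rm φ ψ a b)) p = 0) ∧
      ∀ v ∈ ℓ.direction, ip (co φ ψ (rm φ ψ a b)).2 v = 0 := by
  have hF : G (a + t • (b - a)) < 1 := by
    have h1 := hG.conv (x := a) (y := b) (sub_nonneg.2 t1) t0
    rw [show (1 - t) • a + t • b = a + t • (b - a) by module] at h1
    rcases t0.eq_or_lt with rfl | h0
    · linarith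
    · nlinarith
  set F := a + t • (b - a) with hFd
  obtain ⟨⟨u, hu⟩, u0, hu1⟩ := finrank_eq_one_iff'.1 hl
  have u0 : u ≠ 0 := fun h => u0 (Subtype.ext h)
  have mem : ∀ p, O + p ∈ ℓ ↔ p - F ∈ ℓ.direction := fun p => by
    rw [← AffineSubspace.vsub_right_mem_direction_iff_mem hm (O + p)]
    simp
  obtain ⟨φ, ψ, c, e0⟩ := hG.rev3 (u := u) ha hb hne hF fun x hx' e he => hx x hx' _ he
    ((mem _).2 (by
      rw [← hFd, add_sub_cancel_left]; exact ℓ.direction.smul_mem e hu))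
  obtain ⟨σ, τ, κ1, κ2, s0, τ0, k1, k2, -, -, a1, a2⟩ := c.aff ha hb
  have ea : a + (0 : ℝ) • (b - a) = a := by simp
  have eb : a + (1 : ℝ) • (b - a) = b := by simp
  have d1 := hG.hd_ch c ha hb (s := 0) (t := t) (by rwa [ea]) hF
  have d2 := hG.hd_ch c ha hb (s := t) (t := 1) hF (by rwa [eb])
  rw [ea] at d1
  rw [eb] at d2
  rw [← hFd] at d1 d2
  rw [d1, d2] at hmid
  have pa : 0 < l φ a ∧ 0 < l ψ a := ⟨by
    have := a1 0; rw [ea] at this; rw [this]; positivity, by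
    have := a2 0; rw [ea] at this; rw [this]; exact mul_pos (by linarith) k2⟩
  have pb : 0 < l φ b ∧ 0 < l ψ b := ⟨by
    have := a1 1; rw [eb] at this; rw [this]; positivity, by
    have := a2 1; rw [eb] at this; rw [this]; exact mul_pos (by linarith) k2⟩
  have pf : 0 < l φ F ∧ 0 < l ψ F := ⟨by
    rw [hFd, a1]; positivity, by rw [hFd, a2]; exact mul_pos (by linarith) k2⟩
  have m1 : l φ a / l ψ a ≤ l φ F / l ψ F := by
    rw [div_le_div_iff₀ pa.2 pf.2]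
    have h1 := a1 0; have h2 := a2 0
    rw [ea] at h1 h2
    rw [h1, h2, hFd, a1, a2]
    have := mul_pos k1 k2
    nlinarith [mul_nonneg t0 this.le, mul_nonneg t0 s0.le, mul_nonneg t0 τ0.le,
      mul_nonneg (mul_nonneg t0 (by linarith : 0 ≤ 1 + σ + τ)) this.le]
  have m2 : l φ F / l ψ F ≤ l φ b / l ψ b := by
    rw [div_le_div_iff₀ pf.2 pb.2]
    have h1 := a1 1; have h2 := a2 1
    rw [eb] at h1 h2
    rw [h1, h2, hFd, a1, a2]
    have := mul_pos k1 k2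
    nlinarith [mul_nonneg (mul_nonneg (sub_nonneg.2 t1) (by linarith : 0 ≤ 1 + σ + τ)) this.le]
  have q1 : 0 < l φ a / l ψ a := div_pos pa.1 pa.2
  have q2 : 0 < l φ F / l ψ F := div_pos pf.1 pf.2
  have q3 : 0 < l φ b / l ψ b := div_pos pb.1 pb.2
  have n1 := Real.log_le_log q1 m1
  have n2 := Real.log_le_log q2 m2
  rw [lr, lr, lr, abs_of_nonneg (sub_nonneg.2 n1), abs_of_nonneg (sub_nonneg.2 n2)] at hmid
  have n3 : Real.log ((l φ F / l ψ F) * (l φ F / l ψ F)) =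
      Real.log ((l φ a / l ψ a) * (l φ b / l ψ b)) := by
    rw [Real.log_mul q2.ne' q2.ne', Real.log_mul q1.ne' q3.ne']; linarith
  have n4 := Real.log_injOn_pos (Set.mem_Ioi.2 (by positivity)) (Set.mem_Ioi.2 (by positivity)) n3
  have n5 : rm φ ψ a b = l φ F / l ψ F := by
    rw [rm, ← div_mul_div_comm, ← n4]
    exact Real.sqrt_mul_self q2.le
  have r0 : 0 < rm φ ψ a b := n5 ▸ q2
  have n6 : l φ F = rm φ ψ a b * l ψ F := by rw [n5, div_mul_cancel₀ _ pf.2.ne']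
  have n7 : ip (co φ ψ (rm φ ψ a b)).2 u = 0 := by
    have h1 : (rm φ ψ a b * ip ψ u - ip φ u) * l ψ F = 0 := by
      rw [n6] at e0; linear_combination e0
    have h2 := (mul_eq_zero.1 h1).resolve_right pf.2.ne'
    have h3 : ip (co φ ψ (rm φ ψ a b)).2 u = rm φ ψ a b * ip ψ u - ip φ u := by
      simp [co, ip]; ring
    rw [h3, h2]
  have n8 : ev (co φ ψ (rm φ ψ a b)) F = 0 := by rw [ev_co, n6, sub_self]
  have f0 := (hG.foot c ha hb r0).1
  refine ⟨φ, ψ, c, ?_⟩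
  generalize co φ ψ (rm φ ψ a b) = f at n7 n8 f0 ⊢
  have lin : ∀ v ∈ ℓ.direction, ip f.2 v = 0 := fun v hv => by
    obtain ⟨k, hk⟩ := hu1 ⟨v, hv⟩
    have hk : k • u = v := congrArg Subtype.val hk
    rw [← hk]
    have : ip f.2 (k • u) = k * ip f.2 u := by simp [ip]; ring
    rw [this, n7, mul_zero]
  refine ⟨fun p => ?_, lin⟩
  have e1 : ev f p = ip f.2 (p - F) := by
    have : ev f p = ev f F + ip f.2 (p - F) := by simp [ev, ip]; ring
    rw [this, n8, zero_add]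
  rw [mem, e1]
  refine ⟨lin _, fun h => ?_⟩
  obtain ⟨k, hk⟩ := par u0 f0 n7 h
  exact hk ▸ ℓ.direction.smul_mem _ hu

/-- Let `K` be a bounded open convex set of the plane. (1) Every two points of `K` have a reverse
perpendicular median line. (2) Let `O ∈ K` and let `r n → 1`, `0 < r n < 1`. Suppose that every
triangle inscribed in one of the curves `O + r n (∂K - O)` has reverse perpendicular median lines
of its three sides which form a pencil. Then `K` is the interior of an ellipse. -/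
theorem result (Ω : Set (ℝ × ℝ)) (ho : IsOpen Ω) (hc : Convex ℝ Ω)
    (hb : Bornology.IsBounded Ω) :
    (∀ a ∈ Ω, ∀ b ∈ Ω, a ≠ b → ∃ ℓ, RevMed Ω a b ℓ) ∧
    ∀ O ∈ Ω, ∀ r : ℕ → ℝ, (∀ n, 0 < r n ∧ r n < 1) → Tendsto r atTop (𝓝 1) →
    (∀ n, ∀ a ∈ AffineMap.homothety O (r n) '' frontier Ω,
      ∀ b ∈ AffineMap.homothety O (r n) '' frontier Ω,
      ∀ c ∈ AffineMap.homothety O (r n) '' frontier Ω, ¬ Collinear ℝ {a, b, c} →
      ∃ ℓ₁ ℓ₂ ℓ₃, RevMed Ω a b ℓ₁ ∧ RevMed Ω b c ℓ₂ ∧ RevMed Ω c a ℓ₃ ∧ Pencil ℓ₁ ℓ₂ ℓ₃) →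
    ∃ f : (ℝ × ℝ) ≃ᵃ[ℝ] (ℝ × ℝ), Ω = f '' {p : ℝ × ℝ | p.1 ^ 2 + p.2 ^ 2 < 1} := by
  have setup : ∀ O ∈ Ω, ∃ G : P → ℝ, Gg G ∧ (∀ x, O + x ∈ Ω ↔ G x < 1) ∧
      (∀ x, G x = 1 ↔ O + x ∈ frontier Ω) ∧
      (∀ x y, hilb Ω (O + x) (O + y) = hd G x y) := by
    intro O hO
    have h1 := ho.preimage (by fun_prop : Continuous fun v : P => O + v)
    have h2 := hc.translate_preimage_right O
    have h3 : (0 : P) ∈ (fun v => O + v) ⁻¹' Ω := by simpa using hO
    obtain ⟨hG, hK⟩ := gg_of ((fun v => O + v) ⁻¹' Ω) h1 h2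
      ((isometry_add_left O).antilipschitz.isBounded_preimage hb) h3
    refine ⟨_, hG, fun x => hK x, fun x => ?_, fun x y => ?_⟩
    · rw [gauge_eq_one_iff_mem_frontier h2 (h1.mem_nhds h3)]
      change x ∈ frontier ((Homeomorph.addLeft O) ⁻¹' Ω) ↔ _
      rw [← (Homeomorph.addLeft O).preimage_frontier]
      rfl
    · unfold hilb
      rw [add_sub_add_left_eq_sub]
      simp only [hd, ← hK, Set.mem_preimage, add_sub_assoc, add_assoc]
  have key : ∀ (O : P) (G : P → ℝ), Gg G → (∀ x, O + x ∈ Ω ↔ G x < 1) →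
      (∀ x y, hilb Ω (O + x) (O + y) = hd G x y) → ∀ a b φ ψ, G a < 1 → G b < 1 → Ch G a b φ ψ →
      ∃ ℓ, RevMed Ω (O + a) (O + b) ℓ := by
    intro O G hG hK ed a b φ ψ ha hb h
    have r0 : 0 < rm φ ψ a b := by
      obtain ⟨_, -, _, -, h1, h2⟩ := h
      have := l_pos' h1.1 ha; have := l_pos' h1.1 hb
      have := l_pos' h2.1 ha; have := l_pos' h2.1 hb
      unfold rm; positivity
    obtain ⟨f0, t, t1, t2, t3, t4⟩ := hG.foot h ha hb r0
    obtain ⟨t5, t6, t7⟩ := t4 rfl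
    obtain ⟨ℓ, l1, l2, l3⟩ := line_ex O _ f0 t2
    refine ⟨ℓ, l1, O + (a + t • (b - a)), ?_, by rw [ed, ed, t7], (l2 _).2 t2,
      fun x hx hx' z hz hz' => ?_⟩
    · rw [segment_eq_image']
      exact ⟨t, ⟨t5, t6⟩, by simp [add_assoc]⟩
    · obtain ⟨s, rfl⟩ := mem_affineSpan_pair_iff_exists_lineMap_eq.1 hx
      have e : AffineMap.lineMap (O + a) (O + b) s = O + (a + s • (b - a)) := by
        simp [AffineMap.lineMap_apply]; abel
      rw [e] at hx' ⊢
      rw [← add_sub_cancel O z] at hz hz' ⊢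
      rw [ed, ed]
      exact t3 s ((hK _).1 hx') _ ((hK _).1 hz') ((l2 _).1 hz)
  refine ⟨fun a ha b hb' hne => ?_, fun O hO r hr hr1 H => ?_⟩
  · obtain ⟨G, hG, hK, -, ed⟩ := setup a ha
    have h1 : G 0 < 1 := by rw [← hK]; simpa using ha
    have h2 : G (b - a) < 1 := by rw [← hK]; simpa using hb'
    obtain ⟨φ, ψ, c⟩ := hG.exists_ch h1 h2 (by simpa [eq_comm, sub_eq_zero] using hne)
    obtain ⟨ℓ, hl⟩ := key a G hG hK ed _ _ φ ψ h1 h2 c
    exact ⟨ℓ, by simpa using hl⟩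
  obtain ⟨G, hG, hK, hfr, ed⟩ := setup O hO
  have conv : ∀ {a b : P} {ℓ}, G a < 1 → G b < 1 → a ≠ b → RevMed Ω (O + a) (O + b) ℓ →
      ∃ φ ψ, Ch G a b φ ψ ∧ (∀ p, O + p ∈ ℓ ↔ ev (co φ ψ (rm φ ψ a b)) p = 0) ∧
      ∀ v ∈ ℓ.direction, ip (co φ ψ (rm φ ψ a b)).2 v = 0 := by
    intro a b ℓ ha hb hne h
    obtain ⟨h1, m, hm, h2, h3, h4⟩ := h
    rw [segment_eq_image'] at hm
    obtain ⟨t, ht, rfl⟩ := hm
    beta_reduce at h2 h3 h4
    have e : O + a + t • (O + b - (O + a)) = O + (a + t • (b - a)) := by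
      rw [add_sub_add_left_eq_sub, add_assoc]
    rw [e] at h2 h3 h4
    rw [ed, ed] at h2
    refine med hG ha hb hne h1 ht.1 ht.2 h2 h3 fun x hx z hz hzl => ?_
    have hx' : O + x ∈ Ω := by
      rcases hx with rfl | rfl
      exacts [(hK _).2 ha, (hK _).2 hb]
    have := h4 (O + x) (by
      rcases hx with rfl | rfl
      exacts [left_mem_affineSpan_pair ℝ _ _, right_mem_affineSpan_pair ℝ _ _]) hx' (O + z) hzl
      ((hK _).2 hz)
    rwa [ed, ed] at this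
  have hom : ∀ n x, G x = r n → O + x ∈ AffineMap.homothety O (r n) '' frontier Ω := by
    intro n x hx
    have r0 := (hr n).1
    refine ⟨O + (r n)⁻¹ • x, (hfr _).1 ?_, ?_⟩
    · rw [hG.hom _ (by positivity), hx, inv_mul_cancel₀ r0.ne']
    · simp [AffineMap.homothety_apply, smul_smul, mul_inv_cancel₀ r0.ne', add_comm]
  obtain ⟨f, hf⟩ := hG.ellipse (hG.seg_med' (t := fun n => 1 - r n)
    (fun n => by linarith [(hr n).2]) (fun n => by linarith [(hr n).1])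
    (by simpa using hr1.const_sub 1) fun n a b c ha hb hc hn => by
      have lt : ∀ x, G x = 1 - (1 - r n) → G x < 1 := fun x hx => by linarith [(hr n).2]
      have eq : ∀ x, G x = 1 - (1 - r n) → G x = r n := fun x hx => by linarith
      obtain ⟨ℓ1, ℓ2, ℓ3, r1, r2, r3, hp⟩ := H n _ (hom n _ (eq _ ha)) _ (hom n _ (eq _ hb)) _
        (hom n _ (eq _ hc)) (fun h => hn (by
          obtain ⟨v, hv⟩ := (collinear_iff_of_mem (p₀ := O + a) (by simp)).1 h
          refine (collinear_iff_of_mem (p₀ := a) (by simp)).2 ⟨v, fun p hp => ?_⟩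
          obtain ⟨r, hr⟩ := hv (O + p) (by simpa using hp)
          exact ⟨r, add_left_cancel (a := O) (by rw [hr]; simp [add_left_comm])⟩))
      obtain ⟨φ1, ψ1, c1, x1⟩ := conv (lt _ ha) (lt _ hb) (ne₁₂_of_not_collinear hn) r1
      obtain ⟨φ2, ψ2, c2, x2⟩ := conv (lt _ hb) (lt _ hc) (ne₂₃_of_not_collinear hn) r2
      obtain ⟨φ3, ψ3, c3, x3⟩ := conv (lt _ hc) (lt _ ha) (ne₁₃_of_not_collinear hn).symm r3
      exact ⟨_, _, _, _, _, _, c1, c2, c3, pencil_det O r1.1 x1 x2 x3 hp⟩)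
  refine ⟨f.trans (AffineEquiv.constVAdd ℝ _ O), Set.ext fun x => ⟨fun hx => ?_, ?_⟩⟩
  · refine ⟨f.symm (x - O), (hf _).1 ?_, by simp⟩
    rw [f.apply_symm_apply, ← hK]; simpa using hx
  · rintro ⟨p, hp, rfl⟩
    exact (hK _).2 ((hf p).2 hp)

end Pool.Agent.Results.MP_2655df_gt.InscribedTriangles
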